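import Pool.Agent.X136.BN.Lower

set_option autoImplicit false

/-!
# The bidirectional `k`-neighbour graph percolates for some `k ≤ d`

Definitions: `Pool.Agent.X136.BN.Defs` (`Dir`, `vec`, `opp`, `Choice`, `Config`, `bng`,
`choiceLaw`, `law`, `theta`).
-/

namespace Pool.Agent.Results.MP_e5a0e3_pr.PercolatesAtD

open Pool.Agent.X136.BN

/-- **Disproof.** For every `α > 0` and all large `d`, the bidirectional `k`-neighbour graph on `ℤ^d`
percolates for all `k ≥ α d`; in particular it percolates for `k = d`. -/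
theorem result (α : ℝ) (hα : 0 < α) : ∃ d₀ : ℕ, ∀ d k : ℕ, d₀ ≤ d → ∀ h : k ≤ 2 * d,
    α * d ≤ k → 0 < theta d k h := by
  obtain ⟨C, hC, hperc⟩ := perc_const
  refine ⟨max 6 ⌈(C / α) ^ 2⌉₊, fun d k hd h hk => ?_⟩
  have h6 : 6 ≤ d := le_trans (le_max_left _ _) hd
  have h1 : (C / α) ^ 2 ≤ d := by
    refine (Nat.le_ceil _).trans ?_
    exact_mod_cast le_trans (le_max_right _ _) hd
  have hd' : (6 : ℝ) ≤ d := by exact_mod_cast h6
  refine hperc d k h h6 (le_trans ?_ hk)
  have h2 : C / α ≤ Real.sqrt d := Real.le_sqrt_of_sq_le h1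
  have h3 : C ≤ Real.sqrt d * α := (div_le_iff₀ hα).1 h2
  have hss : Real.sqrt d * Real.sqrt d = d := Real.mul_self_sqrt (by linarith)
  have hs0 : 0 ≤ Real.sqrt d := Real.sqrt_nonneg _
  calc C * Real.sqrt d ≤ (Real.sqrt d * α) * Real.sqrt d := mul_le_mul_of_nonneg_right h3 hs0
    _ = α * (Real.sqrt d * Real.sqrt d) := by ring
    _ = α * d := by rw [hss]

end Pool.Agent.Results.MP_e5a0e3_pr.PercolatesAtD
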